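import Pool.Agent.Lib.EinsteinSix.Sl.A1.Def

set_option maxRecDepth 100000

namespace EinsteinSix.Sl

theorem ckA1_1 : ckA1 1 = true := by decide +kernel
theorem ckA1_9 : ckA1 9 = true := by decide +kernel
theorem ckA1_20 : ckA1 20 = true := by decide +kernel
theorem ckA1_26 : ckA1 26 = true := by decide +kernel
theorem ckA1_42 : ckA1 42 = true := by decide +kernel
theorem ckA1_46 : ckA1 46 = true := by decide +kernel
theorem ckA1_47 : ckA1 47 = true := by decide +kernel
theorem ckA1_48 : ckA1 48 = true := by decide +kernel
theorem ckA1_49 : ckA1 49 = true := by decide +kernel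
theorem ckA1_50 : ckA1 50 = true := by decide +kernel
theorem ckA1_51 : ckA1 51 = true := by decide +kernel
theorem ckA1_52 : ckA1 52 = true := by decide +kernel
theorem ckA1_53 : ckA1 53 = true := by decide +kernel
theorem ckA1_54 : ckA1 54 = true := by decide +kernel
theorem ckA1_55 : ckA1 55 = true := by decide +kernel
theorem ckA1_56 : ckA1 56 = true := by decide +kernel
theorem ckA1_57 : ckA1 57 = true := by decide +kernel
theorem ckA1_58 : ckA1 58 = true := by decide +kernel
theorem ckA1_59 : ckA1 59 = true := by decide +kernel
theorem ckA1_60 : ckA1 60 = true := by decide +kernel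
theorem ckA1_61 : ckA1 61 = true := by decide +kernel
theorem ckA1_62 : ckA1 62 = true := by decide +kernel
theorem ckA1_63 : ckA1 63 = true := by decide +kernel
theorem ckA1_64 : ckA1 64 = true := by decide +kernel
theorem ckA1_65 : ckA1 65 = true := by decide +kernel
theorem ckA1_66 : ckA1 66 = true := by decide +kernel
theorem ckA1_67 : ckA1 67 = true := by decide +kernel
theorem ckA1_68 : ckA1 68 = true := by decide +kernel
theorem ckA1_69 : ckA1 69 = true := by decide +kernel
theorem ckA1_70 : ckA1 70 = true := by decide +kernel
theorem ckA1_71 : ckA1 71 = true := by decide +kernel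
theorem ckA1_72 : ckA1 72 = true := by decide +kernel
theorem ckA1_73 : ckA1 73 = true := by decide +kernel
theorem ckA1_74 : ckA1 74 = true := by decide +kernel
theorem ckA1_75 : ckA1 75 = true := by decide +kernel

end EinsteinSix.Sl
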