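import Pool.Agent.Lib.EinsteinSix.Sl.A1.Def

set_option maxRecDepth 100000

namespace EinsteinSix.Sl

theorem ckA1_8 : ckA1 8 = true := by decide +kernel
theorem ckA1_10 : ckA1 10 = true := by decide +kernel
theorem ckA1_17 : ckA1 17 = true := by decide +kernel
theorem ckA1_19 : ckA1 19 = true := by decide +kernel
theorem ckA1_33 : ckA1 33 = true := by decide +kernel
theorem ckA1_44 : ckA1 44 = true := by decide +kernel

end EinsteinSix.Sl
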