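import Pool.Agent.Lib.EinsteinSix.Sl.A1.Def

set_option maxRecDepth 100000

namespace EinsteinSix.Sl

theorem ckA1_18 : ckA1 18 = true := by decide +kernel
theorem ckA1_31 : ckA1 31 = true := by decide +kernel
theorem ckA1_35 : ckA1 35 = true := by decide +kernel
theorem ckA1_37 : ckA1 37 = true := by decide +kernel
theorem ckA1_40 : ckA1 40 = true := by decide +kernel
theorem ckA1_45 : ckA1 45 = true := by decide +kernel

end EinsteinSix.Sl
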