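import Pool.Agent.Lib.EinsteinSix.Sl.A1.Def

set_option maxRecDepth 100000

namespace EinsteinSix.Sl

theorem ckA1_6 : ckA1 6 = true := by decide +kernel
theorem ckA1_14 : ckA1 14 = true := by decide +kernel
theorem ckA1_25 : ckA1 25 = true := by decide +kernel
theorem ckA1_29 : ckA1 29 = true := by decide +kernel
theorem ckA1_30 : ckA1 30 = true := by decide +kernel
theorem ckA1_39 : ckA1 39 = true := by decide +kernel

end EinsteinSix.Sl
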