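import Pool.Agent.Lib.EinsteinSix.Sl.A1.Def

set_option maxRecDepth 100000

namespace EinsteinSix.Sl

theorem ckA1_3 : ckA1 3 = true := by decide +kernel
theorem ckA1_5 : ckA1 5 = true := by decide +kernel
theorem ckA1_12 : ckA1 12 = true := by decide +kernel
theorem ckA1_22 : ckA1 22 = true := by decide +kernel
theorem ckA1_23 : ckA1 23 = true := by decide +kernel
theorem ckA1_28 : ckA1 28 = true := by decide +kernel

end EinsteinSix.Sl
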