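import Pool.Agent.Lib.EinsteinSix.Sl.A1.ChkAll
import Pool.Agent.Lib.EinsteinSix.Sl.Pos
import Pool.Agent.Lib.H13.HopfEChk
import Pool.Agent.Lib.H56S.OkF

/-!
# Slice A1: `47/10 ≤ trT`
-/

set_option maxRecDepth 100000

open Finset H91.Split

namespace EinsteinSix.Sl

open HopfKC HopfKC.NT HopfKC.Gs

theorem okF_A1 : I76.all (ckFw fTA1) = true := all_ckFw_of_ckFu (by decide +kernel)

theorem okT_A1 : tmsA1.all tyOK = true := by decide +kernel

theorem okS_A1_0 : ckG (rw1 rowSA1_0) 1 (fun _ _ => sliceL (-47) 10) = true := by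
  decide +kernel

theorem types_A1 : (tmsA1.all fun t => Nat.blt t.1 9) = true := by decide +kernel

theorem slack_A1 : (I76.all fun i => bif Nat.beq i 0 then (en (col tmA1_50.2.2 i)) == [(0, 1, 0)]
      else (en (col tmA1_50.2.2 i)) == []) = true := by decide +kernel

theorem slackW_A1 : ckR 1 tmA1_50.2.2 = true := by decide +kernel

theorem last_A1 : tmA1_50 ∈ tmsA1 := by
  unfold tmsA1
  simp only [List.mem_cons, true_or, or_true]

theorem const_A1 : 12 * NNA1 ≤ 192 * tmA1_50.2.1 := by decide +kernel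

theorem NNA1_pos : 0 < NNA1 := by decide +kernel

theorem pos_A1 {S : T6} (h : AdmE S) (h1 : 47 / 10 ≤ trT S) :
    ∀ t ∈ tmsA1, 0 ≤ V (kpg (rwg rowsA1 t.1) t.2.2) (cv 1 S) := by
  intro t ht
  have hok := List.all_eq_true.1 okT_A1 t ht
  have hty : t.1 < 9 := Nat.le_of_ble_eq_true (List.all_eq_true.1 types_A1 t ht)
  have hrows : rowsA1 = allRows [rowSA1_0] := rfl
  rw [hrows]
  by_cases h8 : t.1 < 8
  · exact pos_common _ h h8 hok
  · have h9 : t.1 = 8 := by omega
    obtain ⟨a, d, W⟩ := t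
    simp only at h9
    subst h9
    exact slice_nonneg (α := -47) (β := 10) h.alg okS_A1_0 hok (by push_cast; linarith)

/-- Slice A1 with slack, for maximisers. -/
theorem main_A1 {S : T6} (h : AdmE S) (h1 : 47 / 10 ≤ trT S)
    (hmax : ∀ g : M6, IsBlk g → g.transpose * g = 1 →
      P (fun k i j => (fhw fTA1 k i j : ℝ)) 76 (vq qd (H91.Split.rot g S)) ≤
        P (fun k i j => (fhw fTA1 k i j : ℝ)) 76 (vq qd S)) :
    12 * trT S ≤ HopfSix.gaussBonnet S := by
  have hD : ∀ D : ℕ, AdmE (H91.Split.rot (dg D) S) := fun D => h.rot (dg_blk D) (dg_orth D)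
  have key := slice_main (N := NNA1) (e := e4) (T := fTA1) (rows := rowsA1) (tms := tmsA1)
    ckA1_all okF_A1 h hmax
    (fun D => pos_A1 (hD D) (by rw [trT_dg h]; exact h1))
    last_A1 (fun D => by
      have := V_slack (hD D) (r := rw1 rowS0) ok_S0 slackW_A1 slack_A1
      rw [trT_dg h] at this
      exact this)
    (c := HopfSix.gaussBonnet S / 96) (fun D => by
      have := gb_e4 (hD D).lin
      rw [gb_rot S (dg_orth D)] at this
      exact this.symm)
  have h3 : (12 : ℝ) * (NNA1 : ℝ) ≤ 192 * (tmA1_50.2.1 : ℝ) := by exact_mod_cast const_A1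
  have h4 : (0 : ℝ) < (NNA1 : ℝ) := by exact_mod_cast NNA1_pos
  have h5 := mul_le_mul_of_nonneg_right h3 (trT_nonneg_of h)
  by_contra hlt
  rw [not_le] at hlt
  have h6 := mul_lt_mul_of_pos_left hlt h4
  linarith

/-- **Slice A1** with slack. -/
theorem slice_A1 {R : T6} (h : AdmE R) (h1 : 47 / 10 ≤ trT R) :
    12 * trT R ≤ HopfSix.gaussBonnet R := by
  obtain ⟨S, hS, e1, e2, e4, hmax⟩ := h.exists_max (fun k i j => (fhw fTA1 k i j : ℝ)) 76 qd
  have e3 : trT S = trT R := by
    have g1 := ell_trT h.lin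
    have g2 := ell_trT hS.lin
    rw [g1, g2] at e2
    linarith
  have := main_A1 hS (by rw [e3]; exact h1) hmax
  rwa [e3, e1] at this

end EinsteinSix.Sl
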